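import Pool.Agent.Helper44.TOT.Defs

/-! TOT-S12: TupleAvg from ExpAvg -/

namespace Pool.Agent.Helper50.TOT

open Pool.Agent.Helper44.TOT Finset

theorem sig_nonneg (R n : ℕ) : 0 ≤ sig R n :=
  Finset.sum_nonneg fun l _ => by positivity

theorem sig_mul (R a b : ℕ) : sig R (a * b) ≤ sig R a + sig R b := by
  classical
  by_cases ha : a = 0
  · subst ha
    have : sig R (0 * b) = 0 := by simp [sig]
    rw [this]
    exact add_nonneg (sig_nonneg _ _) (sig_nonneg _ _)
  by_cases hb : b = 0
  · subst hb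
    have : sig R (a * 0) = 0 := by simp [sig]
    rw [this]
    exact add_nonneg (sig_nonneg _ _) (sig_nonneg _ _)
  unfold sig
  rw [Nat.primeFactors_mul ha hb, Finset.filter_union, ← Finset.sum_union_inter]
  have : 0 ≤ ∑ l ∈ a.primeFactors.filter (fun l => R < l) ∩ b.primeFactors.filter (fun l => R < l),
      (1 : ℝ) / l := Finset.sum_nonneg fun l _ => by positivity
  linarith

theorem sig_prod {ι : Type*} (R : ℕ) (s : Finset ι) (f : ι → ℕ) :
    sig R (∏ i ∈ s, f i) ≤ ∑ i ∈ s, sig R (f i) := by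
  classical
  induction s using Finset.induction_on with
  | empty => simp [sig]
  | insert i s hi ih =>
    rw [Finset.prod_insert hi, Finset.sum_insert hi]
    exact (sig_mul R _ _).trans (by linarith)

/-- the pairs `i < j` -/
def ltp (K : ℕ) : Finset (Fin K × Fin K) :=
  (Finset.univ : Finset (Fin K × Fin K)).filter (fun ij => ij.1 < ij.2)

theorem card_ltp (K : ℕ) : 2 * (ltp K).card + K = K * K := by
  classical
  have h1 : ((Finset.univ : Finset (Fin K × Fin K)).filter (fun ij => ij.2 < ij.1)).card =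
      (ltp K).card := by
    refine Finset.card_bij' (fun ij _ => (ij.2, ij.1)) (fun ij _ => (ij.2, ij.1)) ?_ ?_ ?_ ?_
    · intro a ha
      simp only [ltp, Finset.mem_filter, Finset.mem_univ, true_and] at ha ⊢
      exact ha
    · intro a ha
      simp only [ltp, Finset.mem_filter, Finset.mem_univ, true_and] at ha ⊢
      exact ha
    · intro a _; rfl
    · intro a _; rfl
  have h2 : ((Finset.univ : Finset (Fin K × Fin K)).filter (fun ij => ij.1 = ij.2)).card = K := by
    have : ((Finset.univ : Finset (Fin K × Fin K)).filter (fun ij => ij.1 = ij.2)) =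
        (Finset.univ : Finset (Fin K)).image (fun i => (i, i)) := by
      ext ⟨a, b⟩
      simp only [Finset.mem_filter, Finset.mem_univ, true_and, Finset.mem_image, Prod.mk.injEq]
      constructor
      · intro h; exact ⟨a, rfl, h⟩
      · rintro ⟨c, rfl, rfl⟩; rfl
    rw [this, Finset.card_image_of_injective _ (fun a b h => (Prod.mk.inj h).1)]
    simp
  have h3 : (Finset.univ : Finset (Fin K × Fin K)).card = K * K := by simp
  have h4 : (Finset.univ : Finset (Fin K × Fin K)) =
      ltp K ∪ ((Finset.univ.filter (fun ij : Fin K × Fin K => ij.2 < ij.1)) ∪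
        (Finset.univ.filter (fun ij : Fin K × Fin K => ij.1 = ij.2))) := by
    ext ⟨a, b⟩
    simp only [ltp, Finset.mem_univ, Finset.mem_union, Finset.mem_filter, true_and, true_iff]
    rcases lt_trichotomy a b with h | h | h
    · exact Or.inl h
    · exact Or.inr (Or.inr h)
    · exact Or.inr (Or.inl h)
  have h5 : Disjoint (Finset.univ.filter (fun ij : Fin K × Fin K => ij.2 < ij.1))
      (Finset.univ.filter (fun ij : Fin K × Fin K => ij.1 = ij.2)) := by
    rw [Finset.disjoint_left]
    intro a ha hb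
    simp only [Finset.mem_filter, Finset.mem_univ, true_and] at ha hb
    rw [hb] at ha
    exact lt_irrefl _ ha
  have h6 : Disjoint (ltp K) ((Finset.univ.filter (fun ij : Fin K × Fin K => ij.2 < ij.1)) ∪
        (Finset.univ.filter (fun ij : Fin K × Fin K => ij.1 = ij.2))) := by
    rw [Finset.disjoint_left]
    intro a ha hb
    simp only [ltp, Finset.mem_union, Finset.mem_filter, Finset.mem_univ, true_and] at ha hb
    rcases hb with hb | hb
    · exact lt_asymm ha hb
    · rw [hb] at ha
      exact lt_irrefl _ ha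
  rw [h4, Finset.card_union_of_disjoint h6, Finset.card_union_of_disjoint h5, h1, h2] at h3
  omega

/-- Jensen for exp -/
theorem exp_sum_le {ι : Type*} (s : Finset ι) (hs : s.Nonempty) (E : ℝ) (x : ι → ℝ) :
    Real.exp (E * ∑ i ∈ s, x i) ≤
      (1 / (s.card : ℝ)) * ∑ i ∈ s, Real.exp (E * s.card * x i) := by
  have hc : (0 : ℝ) < s.card := by exact_mod_cast hs.card_pos
  have h := convexOn_exp.map_sum_le (t := s) (w := fun _ => 1 / (s.card : ℝ))
    (p := fun i => E * s.card * x i) (fun _ _ => by positivity)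
    (by rw [Finset.sum_const, nsmul_eq_mul]; field_simp) (fun _ _ => Set.mem_univ _)
  simp only [smul_eq_mul] at h
  rw [← Finset.mul_sum, ← Finset.mul_sum, ← Finset.mul_sum] at h
  have h2 : 1 / (s.card : ℝ) * (E * s.card * ∑ i ∈ s, x i) = E * ∑ i ∈ s, x i := by
    field_simp
  rwa [h2] at h

/-- the box -/
def box (K M : ℕ) : Finset (Fin K → ℕ) := Fintype.piFinset fun _ => Finset.Icc 1 M

theorem sum_box_prod (K M : ℕ) (F : Fin K → ℕ → ℝ) :
    ∑ μ ∈ box K M, ∏ k, F k (μ k) = ∏ k, ∑ n ∈ Finset.Icc 1 M, F k n := by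
  unfold box
  rw [Finset.prod_univ_sum]

theorem sum_single (K M : ℕ) (i : Fin K) (g : ℕ → ℝ) :
    ∑ μ ∈ box K M, g (μ i) = (∑ n ∈ Finset.Icc 1 M, g n) * (M : ℝ) ^ (K - 1) := by
  classical
  have h1 : ∀ μ : Fin K → ℕ, g (μ i) = ∏ k, (if k = i then g (μ k) else 1) := by
    intro μ
    rw [← Finset.mul_prod_erase Finset.univ _ (Finset.mem_univ i), if_pos rfl,
      Finset.prod_eq_one, mul_one]
    intro k hk
    rw [if_neg (Finset.ne_of_mem_erase hk)]
  rw [Finset.sum_congr rfl fun μ _ => h1 μ,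
    sum_box_prod K M (fun k n => if k = i then g n else 1),
    ← Finset.mul_prod_erase Finset.univ _ (Finset.mem_univ i)]
  simp only [if_true]
  congr 1
  rw [Finset.prod_congr rfl (g := fun _ => (M : ℝ))]
  · rw [Finset.prod_const, Finset.card_erase_of_mem (Finset.mem_univ i)]
    simp
  · intro k hk
    rw [Finset.sum_congr rfl (g := fun _ => (1 : ℝ))]
    · simp
    · intro n _
      rw [if_neg (Finset.ne_of_mem_erase hk)]

theorem sum_pair_fixed (K M : ℕ) (i j : Fin K) (hij : i ≠ j) (v : ℕ) (hv : v ∈ Finset.Icc 1 M)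
    (g : ℕ → ℝ) :
    ∑ μ ∈ box K M, (if μ j = v then g (μ i) else 0) =
      (∑ n ∈ Finset.Icc 1 M, g n) * (M : ℝ) ^ (K - 2) := by
  classical
  have h1 : ∀ μ : Fin K → ℕ, (if μ j = v then g (μ i) else 0) =
      ∏ k, (if k = i then g (μ k) else if k = j then (if μ k = v then 1 else 0) else 1) := by
    intro μ
    rw [← Finset.mul_prod_erase Finset.univ _ (Finset.mem_univ i), if_pos rfl,
      ← Finset.mul_prod_erase (Finset.univ.erase i) _
        (Finset.mem_erase.2 ⟨hij.symm, Finset.mem_univ j⟩), if_neg hij.symm, if_pos rfl,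
      Finset.prod_eq_one, mul_one]
    · split_ifs <;> simp
    · intro k hk
      rw [if_neg (Finset.ne_of_mem_erase (Finset.mem_of_mem_erase hk)),
        if_neg (Finset.ne_of_mem_erase hk)]
  rw [Finset.sum_congr rfl fun μ _ => h1 μ,
    sum_box_prod K M (fun k n => if k = i then g n else
        if k = j then (if n = v then 1 else 0) else 1),
    ← Finset.mul_prod_erase Finset.univ _ (Finset.mem_univ i)]
  simp only [if_true]
  congr 1
  rw [← Finset.mul_prod_erase (Finset.univ.erase i) _
        (Finset.mem_erase.2 ⟨hij.symm, Finset.mem_univ j⟩)]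
  have h2 : ∑ n ∈ Finset.Icc 1 M, (if j = i then g n else
      if j = j then (if n = v then (1 : ℝ) else 0) else 1) = 1 := by
    rw [Finset.sum_congr rfl (g := fun n => if n = v then (1 : ℝ) else 0)]
    · rw [Finset.sum_ite_eq' (Finset.Icc 1 M) v (fun _ => (1 : ℝ)), if_pos hv]
    · intro n _
      rw [if_neg hij.symm, if_pos rfl]
  rw [h2, one_mul, Finset.prod_congr rfl (g := fun _ => (M : ℝ))]
  · rw [Finset.prod_const, Finset.card_erase_of_mem
      (Finset.mem_erase.2 ⟨hij.symm, Finset.mem_univ j⟩),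
      Finset.card_erase_of_mem (Finset.mem_univ i)]
    simp [Nat.sub_sub]
  · intro k hk
    rw [Finset.sum_congr rfl (g := fun _ => (1 : ℝ))]
    · simp
    · intro n _
      rw [if_neg (Finset.ne_of_mem_erase (Finset.mem_of_mem_erase hk)),
        if_neg (Finset.ne_of_mem_erase hk)]

theorem sum_diff_le (M v : ℕ) (hv : v ∈ Finset.Icc 1 M) (g : ℕ → ℝ) (hg : ∀ n, 0 ≤ g n) :
    ∑ n ∈ Finset.Icc 1 M, (if n = v then 0 else g (max n v - min n v)) ≤
      2 * ∑ n ∈ Finset.Icc 1 M, g n := by
  classical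
  rw [Finset.mem_Icc] at hv
  have h1 : ∑ n ∈ (Finset.Icc 1 M).filter (fun n => n < v),
      (if n = v then 0 else g (max n v - min n v)) ≤ ∑ n ∈ Finset.Icc 1 M, g n := by
    have h2 : ∑ n ∈ (Finset.Icc 1 M).filter (fun n => n < v),
        (if n = v then 0 else g (max n v - min n v)) =
        ∑ n ∈ ((Finset.Icc 1 M).filter (fun n => n < v)).image (fun n => v - n), g n := by
      rw [Finset.sum_image]
      · refine Finset.sum_congr rfl fun n hn => ?_
        have hn2 := (Finset.mem_filter.1 hn).2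
        rw [if_neg hn2.ne, max_eq_right hn2.le, min_eq_left hn2.le]
      · intro a ha b hb hab
        have ha2 := (Finset.mem_filter.1 ha).2
        have hb2 := (Finset.mem_filter.1 hb).2
        simp only at hab
        omega
    rw [h2]
    refine Finset.sum_le_sum_of_subset_of_nonneg ?_ (fun n _ _ => hg n)
    intro m hm
    obtain ⟨n, hn, rfl⟩ := Finset.mem_image.1 hm
    have hn1 := Finset.mem_Icc.1 (Finset.mem_filter.1 hn).1
    have hn2 := (Finset.mem_filter.1 hn).2
    rw [Finset.mem_Icc]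
    omega
  have h3 : ∑ n ∈ (Finset.Icc 1 M).filter (fun n => ¬ n < v),
      (if n = v then 0 else g (max n v - min n v)) ≤ ∑ n ∈ Finset.Icc 1 M, g n := by
    have h4 : ∑ n ∈ (Finset.Icc 1 M).filter (fun n => ¬ n < v),
        (if n = v then 0 else g (max n v - min n v)) ≤
        ∑ n ∈ ((Finset.Icc 1 M).filter (fun n => v < n)).image (fun n => n - v), g n := by
      rw [Finset.sum_image]
      · rw [← Finset.sum_subset (s₁ := (Finset.Icc 1 M).filter (fun n => v < n))]
        · refine Finset.sum_le_sum fun n hn => ?_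
          have hn2 := (Finset.mem_filter.1 hn).2
          rw [if_neg hn2.ne', max_eq_left hn2.le, min_eq_right hn2.le]
        · intro n hn
          have hn2 := (Finset.mem_filter.1 hn).2
          exact Finset.mem_filter.2 ⟨(Finset.mem_filter.1 hn).1, by omega⟩
        · intro n hn hn'
          have hn2 := (Finset.mem_filter.1 hn).2
          have : n = v := by
            by_contra hne
            exact hn' (Finset.mem_filter.2 ⟨(Finset.mem_filter.1 hn).1, by omega⟩)
          rw [if_pos this]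
      · intro a ha b hb hab
        have ha2 := (Finset.mem_filter.1 ha).2
        have hb2 := (Finset.mem_filter.1 hb).2
        simp only at hab
        omega
    refine h4.trans (Finset.sum_le_sum_of_subset_of_nonneg ?_ (fun n _ _ => hg n))
    intro m hm
    obtain ⟨n, hn, rfl⟩ := Finset.mem_image.1 hm
    have hn1 := Finset.mem_Icc.1 (Finset.mem_filter.1 hn).1
    have hn2 := (Finset.mem_filter.1 hn).2
    rw [Finset.mem_Icc]
    omega
  rw [← Finset.sum_filter_add_sum_filter_not (Finset.Icc 1 M) (fun n => n < v)]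
  linarith

theorem sum_pair_le (K M : ℕ) (i j : Fin K) (hij : i ≠ j) (g : ℕ → ℝ) (hg : ∀ n, 0 ≤ g n) :
    ∑ μ ∈ box K M, (if μ i = μ j then 0 else g (max (μ i) (μ j) - min (μ i) (μ j))) ≤
      M * (2 * ∑ n ∈ Finset.Icc 1 M, g n) * (M : ℝ) ^ (K - 2) := by
  classical
  have h1 : ∀ μ ∈ box K M, (if μ i = μ j then 0 else g (max (μ i) (μ j) - min (μ i) (μ j))) =
      ∑ v ∈ Finset.Icc 1 M, (if μ j = v then
        (if μ i = v then 0 else g (max (μ i) v - min (μ i) v)) else 0) := by
    intro μ hμ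
    have hj : μ j ∈ Finset.Icc 1 M := (Fintype.mem_piFinset.1 hμ) j
    rw [Finset.sum_ite_eq (Finset.Icc 1 M) (μ j), if_pos hj]
  rw [Finset.sum_congr rfl h1, Finset.sum_comm]
  have h2 : ∀ v ∈ Finset.Icc 1 M, ∑ μ ∈ box K M, (if μ j = v then
        (if μ i = v then 0 else g (max (μ i) v - min (μ i) v)) else 0) ≤
        (2 * ∑ n ∈ Finset.Icc 1 M, g n) * (M : ℝ) ^ (K - 2) := by
    intro v hv
    rw [sum_pair_fixed K M i j hij v hv (fun n => if n = v then 0 else g (max n v - min n v))]
    exact mul_le_mul_of_nonneg_right (sum_diff_le M v hv g hg) (by positivity)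
  refine (Finset.sum_le_sum h2).trans ?_
  rw [Finset.sum_const, Nat.card_Icc, nsmul_eq_mul]
  simp only [Nat.add_sub_cancel]
  exact le_of_eq (by ring)

theorem tupleAvg (hEA : ExpAvg) : TupleAvg := by
  classical
  intro K R M E S hK hE hR hER hS
  set T : Finset (Fin K ⊕ (Fin K × Fin K)) :=
    (Finset.univ : Finset (Fin K)).disjSum (ltp K) with hT
  have hTcard : (T.card : ℝ) = (K : ℝ) * (K + 1) / 2 := by
    have h1 := card_ltp K
    have h2 : 2 * T.card = K * (K + 1) := by
      rw [hT, Finset.card_disjSum, Finset.card_univ, Fintype.card_fin]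
      nlinarith
    have h3 : (2 : ℝ) * T.card = K * (K + 1) := by exact_mod_cast h2
    linarith
  have hTne : T.Nonempty := by
    rw [← Finset.card_pos, hT, Finset.card_disjSum, Finset.card_univ, Fintype.card_fin]
    omega
  have hTpos : (0 : ℝ) < T.card := by exact_mod_cast hTne.card_pos
  set E' : ℝ := E * T.card with hE'
  have hE'0 : 0 ≤ E' := by positivity
  have hE'R : 4 * E' ≤ R := by
    rw [hE', hTcard]
    linarith
  set g : ℕ → ℝ := fun n => Real.exp (E' * sig R n) with hg
  have hg0 : ∀ n, 0 ≤ g n := fun n => (Real.exp_pos _).le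
  have hgsum : ∑ n ∈ Finset.Icc 1 M, g n ≤ 2 * M := hEA E' R M hE'0 hR hE'R
  have hSbox : S ⊆ box K M := by
    intro μ hμ
    rw [box, Fintype.mem_piFinset]
    intro i
    rw [Finset.mem_Icc]
    exact (hS μ hμ).2 i
  let x : (Fin K → ℕ) → (Fin K ⊕ (Fin K × Fin K)) → ℕ := fun μ =>
    Sum.elim (fun i => μ i) (fun ij => max (μ ij.1) (μ ij.2) - min (μ ij.1) (μ ij.2))
  have hpt : ∀ μ ∈ S, Real.exp (E * sig R (Del K μ)) ≤
      (1 / (T.card : ℝ)) * ∑ t ∈ T, g (x μ t) := by
    intro μ hμ
    refine le_trans ?_ (exp_sum_le T hTne E (fun t => sig R (x μ t)))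
    rw [Real.exp_le_exp]
    refine mul_le_mul_of_nonneg_left ?_ hE
    rw [hT, Finset.sum_disjSum]
    refine (sig_mul R _ _).trans (add_le_add ?_ ?_)
    · exact sig_prod R _ _
    · exact sig_prod R _ _
  have hterm : ∀ t ∈ T, ∑ μ ∈ S, g (x μ t) ≤ 4 * (M : ℝ) ^ K := by
    intro t ht
    rcases t with i | ij
    · have h1 : ∑ μ ∈ S, g (x μ (Sum.inl i)) ≤ ∑ μ ∈ box K M, g (μ i) :=
        Finset.sum_le_sum_of_subset_of_nonneg hSbox fun _ _ _ => hg0 _
      refine h1.trans ?_
      rw [sum_single]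
      have h2 : (M : ℝ) ^ K = M * (M : ℝ) ^ (K - 1) := by
        rw [← pow_succ', Nat.sub_add_cancel hK]
      rw [h2]
      have h3 : (0 : ℝ) ≤ (M : ℝ) ^ (K - 1) := by positivity
      have h4 : (0 : ℝ) ≤ M := by positivity
      nlinarith [mul_le_mul_of_nonneg_right hgsum h3, mul_nonneg h4 h3]
    · have hij : ij.1 < ij.2 := by
        rw [hT, Finset.inr_mem_disjSum] at ht
        exact (Finset.mem_filter.1 ht).2
      have hK2 : 2 ≤ K := by
        have := ij.2.2
        have h0 : (ij.1 : ℕ) < ij.2 := hij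
        omega
      have h1 : ∑ μ ∈ S, g (x μ (Sum.inr ij)) ≤ ∑ μ ∈ box K M,
          (if μ ij.1 = μ ij.2 then 0 else
            g (max (μ ij.1) (μ ij.2) - min (μ ij.1) (μ ij.2))) := by
        refine le_trans (Finset.sum_le_sum fun μ hμ => ?_)
          (Finset.sum_le_sum_of_subset_of_nonneg hSbox fun μ _ _ => ?_)
        · rw [if_neg (fun h => hij.ne ((hS μ hμ).1 h))]
          exact le_rfl
        · split_ifs
          · exact le_rfl
          · exact hg0 _
      refine h1.trans ((sum_pair_le K M ij.1 ij.2 hij.ne g hg0).trans ?_)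
      have h2 : (M : ℝ) ^ K = M * M * (M : ℝ) ^ (K - 2) := by
        have : K = (K - 2) + 2 := by omega
        conv_lhs => rw [this]
        rw [pow_add]; ring
      rw [h2]
      have h3 : (0 : ℝ) ≤ (M : ℝ) ^ (K - 2) := by positivity
      have h4 : (0 : ℝ) ≤ M := by positivity
      have h5 := mul_le_mul_of_nonneg_right (mul_le_mul_of_nonneg_left hgsum h4) h3
      nlinarith
  calc ∑ μ ∈ S, Real.exp (E * sig R (Del K μ))
      ≤ ∑ μ ∈ S, (1 / (T.card : ℝ)) * ∑ t ∈ T, g (x μ t) := Finset.sum_le_sum hpt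
    _ = (1 / (T.card : ℝ)) * ∑ t ∈ T, ∑ μ ∈ S, g (x μ t) := by
        rw [← Finset.mul_sum, Finset.sum_comm]
    _ ≤ (1 / (T.card : ℝ)) * ∑ t ∈ T, 4 * (M : ℝ) ^ K := by
        refine mul_le_mul_of_nonneg_left (Finset.sum_le_sum hterm) (by positivity)
    _ = 4 * (M : ℝ) ^ K := by
        rw [Finset.sum_const, nsmul_eq_mul]
        field_simp

end Pool.Agent.Helper50.TOT
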